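import Pool.Agent.Results.MP_6bfc9e_al.NoetherianLayers

set_option autoImplicit false

namespace Pool.Agent.Results.MP_6bfc9e_al.GabrielDimension

open Pool.Agent.Results.MP_6bfc9e_al.NoetherianLayers

/-- The least class of pairs `(c, b)` of elements of a partially ordered set (thought of as the
intervals `[c, b]`) such that a pair `(c, b)` belongs to it as soon as
* every `c'` with `c ≤ c' < b` lies strictly below some `d ≤ b` with `(c', d)` in the class, or
* `(c', b)` is in the class for all `c'` with `c < c' ≤ b`.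
For the lattice of submodules of a module this says that the module `b / c` has Gabriel
dimension. -/
def Gab {L : Type*} [PartialOrder L] (c b : L) : Prop :=
  ∀ P : L → L → Prop,
    (∀ x y : L, (∀ x', x ≤ x' → x' < y → ∃ d, x' < d ∧ d ≤ y ∧ P x' d) → P x y) →
    (∀ x y : L, (∀ x', x < x' → x' ≤ y → P x' y) → P x y) → P c b

/-- Every endomorphism of a submodule extends to an endomorphism of the module. -/
def WeaklyInjective (R M : Type*) [Ring R] [AddCommGroup M] [Module R M] : Prop :=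
  ∀ (N : Submodule R M) (f : N →ₗ[R] N),
    ∃ g : M →ₗ[R] M, ∀ x : N, g (x : M) = ((f x : N) : M)

/-- Every homomorphism from a submodule to the module extends to an endomorphism. -/
def QuasiInjective (R M : Type*) [Ring R] [AddCommGroup M] [Module R M] : Prop :=
  ∀ (N : Submodule R M) (f : N →ₗ[R] M), ∃ g : M →ₗ[R] M, ∀ x : N, g (x : M) = f x

/-- The socle: the sum of all simple submodules. -/
def Soc (R M : Type*) [Ring R] [AddCommGroup M] [Module R M] : Submodule R M :=
  sSup {S : Submodule R M | IsSimpleModule R S}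

/-- The socle meets every nonzero submodule nontrivially. -/
def EssentialSocle (R M : Type*) [Ring R] [AddCommGroup M] [Module R M] : Prop :=
  ∀ K : Submodule R M, K ≠ ⊥ → K ⊓ Soc R M ≠ ⊥

variable {R : Type*} [Ring R] {M : Type*} [AddCommGroup M] [Module R M]

/-- The key extension step. -/
lemma key
    (hWI : ∀ (N : Submodule R M) (f : N →ₗ[R] N),
      ∃ g : M →ₗ[R] M, ∀ x : N, g (x : M) = ((f x : N) : M))
    (N : Submodule R M)
    (hN : ∀ x ∈ N, ∀ m : M, (∀ r : R, r • x ∈ D R M → r • m = 0) → m ∈ D R M) :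
    N ≤ D R M := by
  intro n hn
  rw [mem_D]
  intro G hG
  obtain ⟨t, ht⟩ := wi_graph hWI hG.1 (D R M) (by
    intro d hd
    obtain ⟨e, he⟩ := mem_D.1 hd G hG
    exact ⟨e, D_stable hG hd he, he⟩)
  have hsh : Fn (shear G t) := by
    intro z hz
    rw [mem_shear, map_zero, add_zero] at hz
    exact hG.1 z hz
  -- the domain of `G` inside `N`
  obtain ⟨t', ht'⟩ := wi_graph hWI hsh
    ((G.map (LinearMap.fst R M M) ⊓ N) ⊔ D R M) (by
      intro a ha
      rw [Submodule.mem_sup] at ha
      obtain ⟨b, ⟨⟨⟨b', y⟩, hy, rfl⟩, hbN⟩, d, hd, rfl⟩ := ha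
      simp only [LinearMap.fst_apply] at hbN ⊢
      refine ⟨y - t b', ?_, ?_⟩
      · refine (le_sup_right : D R M ≤ _) (hN b' hbN _ ?_)
        intro r hr
        have h1 := G.smul_mem r hy
        simp only [Prod.smul_mk] at h1
        have h2 := hG.1.uniq h1 (ht _ hr)
        rw [smul_sub, h2, LinearMap.map_smul, sub_self]
      · rw [mem_shear]
        have h3 := G.add_mem hy (ht d hd)
        simp only [Prod.mk_add_mk] at h3
        convert h3 using 2
        rw [map_add]; abel)
  refine ⟨(t' + t) n, ext_one hG n _ ?_⟩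
  intro r y hy
  have hY : r • n ∈ (G.map (LinearMap.fst R M M) ⊓ N) ⊔ D R M :=
    (le_sup_left : G.map (LinearMap.fst R M M) ⊓ N ≤ _)
      ⟨⟨(r • n, y), hy, rfl⟩, N.smul_mem r hn⟩
  have h4 := ht' _ hY
  rw [mem_shear] at h4
  rw [hG.1.uniq hy h4, ← LinearMap.map_smul, LinearMap.add_apply]

variable {X : Type*} [AddCommGroup X] [Module R X]

/-- No nonzero map from a cyclic submodule of `B / C` to `M / D`. -/
def Phi (R M : Type*) [Ring R] [AddCommGroup M] [Module R M] {X : Type*} [AddCommGroup X]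
    [Module R X] (C B : Submodule R X) : Prop :=
  ∀ x ∈ B, ∀ m : M, (∀ r : R, r • x ∈ C → r • m ∈ D R M) → m ∈ D R M

lemma phi_a (C B : Submodule R X) (hCB : C ≤ B)
    (h : ∀ C', C ≤ C' → C' < B → ∃ E, C' < E ∧ E ≤ B ∧ Phi R M C' E) : Phi R M C B := by
  intro x hx m hm
  obtain ⟨C', hCC', hmax⟩ := zorn_le_nonempty₀
    {C' : Submodule R X | C' ≤ B ∧ ∀ r : R, r • x ∈ C' → r • m ∈ D R M} (by
      intro c hc hcc y hy
      refine ⟨sSup c, ⟨sSup_le fun z hz => (hc hz).1, ?_⟩, fun z hz => le_sSup hz⟩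
      intro r hr
      rw [Submodule.mem_sSup_of_directed ⟨y, hy⟩ hcc.directedOn] at hr
      obtain ⟨K, hK, hrK⟩ := hr
      exact (hc hK).2 r hrK) C ⟨hCB, hm⟩
  obtain ⟨hC'B, hC'm⟩ := hmax.prop
  rcases hC'B.eq_or_lt with heq | hlt
  · have h1 := hC'm 1 (by rw [one_smul, heq]; exact hx)
    rwa [one_smul] at h1
  obtain ⟨E, hE1, hE2, hE3⟩ := h C' hCC' hlt
  by_contra hcon
  have hnot : ¬ ∀ r : R, r • x ∈ E → r • m ∈ D R M := by
    intro hE
    exact absurd (hmax.le_of_ge (y := E) ⟨hE2, hE⟩ hE1.le) (not_le_of_gt hE1)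
  push Not at hnot
  obtain ⟨r, hr1, hr2⟩ := hnot
  refine hr2 (hE3 _ hr1 _ ?_)
  intro s hs
  rw [smul_smul] at hs ⊢
  exact hC'm _ hs

lemma phi_b
    (hWI : ∀ (N : Submodule R M) (f : N →ₗ[R] N),
      ∃ g : M →ₗ[R] M, ∀ x : N, g (x : M) = ((f x : N) : M))
    (hsoc : ∀ K : Submodule R M, K ≠ ⊥ →
      K ⊓ sSup {S : Submodule R M | IsSimpleModule R S} ≠ ⊥)
    (C B : Submodule R X) (hCB : C ≤ B)
    (h : ∀ C', C < C' → C' ≤ B → Phi R M C' B) : Phi R M C B := by
  intro x hx m hm
  refine key hWI (Submodule.span R {m}) ?_ (Submodule.mem_span_singleton_self m)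
  intro y hy m' hm'
  obtain ⟨r, rfl⟩ := Submodule.mem_span_singleton.1 hy
  by_contra hcon
  have hne : Submodule.span R {m'} ≠ ⊥ := by
    rw [Ne, Submodule.span_singleton_eq_bot]
    rintro rfl
    exact hcon (D R M).zero_mem
  have h2 := hsoc _ hne
  rw [Submodule.ne_bot_iff] at h2
  obtain ⟨v, ⟨hv1, hv2⟩, hv0⟩ := h2
  obtain ⟨t, rfl⟩ := Submodule.mem_span_singleton.1 hv1
  have htD : t • m' ∈ D R M := soc_le_D hv2
  have h3 : t • r • x ∉ C := by
    intro h4
    rw [smul_smul] at h4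
    have h5 := hm _ h4
    rw [← smul_smul] at h5
    exact hv0 (hm' _ h5)
  have hlt : C < C ⊔ Submodule.span R {t • r • x} := by
    refine lt_of_le_of_ne le_sup_left ?_
    intro h4
    apply h3
    rw [h4]
    exact (le_sup_right : Submodule.span R {t • r • x} ≤ _) (Submodule.mem_span_singleton_self _)
  have hle : C ⊔ Submodule.span R {t • r • x} ≤ B := by
    refine sup_le hCB ?_
    rw [Submodule.span_singleton_le_iff_mem]
    exact B.smul_mem _ (B.smul_mem _ hx)
  refine hcon (h _ hlt hle (r • x) (B.smul_mem _ hx) m' ?_)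
  intro s hs
  rw [Submodule.mem_sup] at hs
  obtain ⟨c, hc, z, hz, hcz⟩ := hs
  obtain ⟨u, rfl⟩ := Submodule.mem_span_singleton.1 hz
  have h6 : ((s - u * t) * r) • x ∈ C := by
    have : ((s - u * t) * r) • x = c := by
      rw [← smul_smul, sub_smul, ← smul_smul, ← hcz]; abel
    rw [this]; exact hc
  have h7 := hm _ h6
  rw [← smul_smul] at h7
  have h8 := hm' _ h7
  rw [sub_smul, sub_eq_zero, ← smul_smul] at h8
  rw [h8]
  exact (D R M).smul_mem _ htD

/-- Modules with Gabriel dimension have no nonzero cyclic image in `M / D`. -/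
lemma phi_of_gab
    (hWI : ∀ (N : Submodule R M) (f : N →ₗ[R] N),
      ∃ g : M →ₗ[R] M, ∀ x : N, g (x : M) = ((f x : N) : M))
    (hsoc : ∀ K : Submodule R M, K ≠ ⊥ →
      K ⊓ sSup {S : Submodule R M | IsSimpleModule R S} ≠ ⊥)
    (C B : Submodule R X) (hCB : C ≤ B) (hG : Gab C B) : Phi R M C B := by
  refine hG (fun C B => C ≤ B → Phi R M C B) ?_ ?_ hCB
  · intro C B h hCB
    refine phi_a C B hCB ?_
    intro C' h1 h2
    obtain ⟨E, h3, h4, h5⟩ := h C' h1 h2
    exact ⟨E, h3, h4, h5 h3.le⟩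
  · intro C B h hCB
    refine phi_b hWI hsoc C B hCB ?_
    intro C' h1 h2
    exact h C' h1 h2 h2

lemma qi_of_top
    (hWI : ∀ (N : Submodule R M) (f : N →ₗ[R] N),
      ∃ g : M →ₗ[R] M, ∀ x : N, g (x : M) = ((f x : N) : M))
    (hDtop : D R M = ⊤) (N : Submodule R M) (f : N →ₗ[R] M) :
      ∃ g : M →ₗ[R] M, ∀ x : N, g (x : M) = f x := by
  let Gf : Submodule R (M × M) := (LinearMap.range (N.subtype.prod f))
  have hGf : Fn Gf := by
    rintro y ⟨x, hx⟩
    have h1 : (x : M) = 0 := congrArg Prod.fst hx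
    have h2 : f x = y := congrArg Prod.snd hx
    have : x = 0 := Subtype.ext h1
    rw [← h2, this, map_zero]
  obtain ⟨G, hle, hmax⟩ := exists_max Gf hGf
  obtain ⟨g, hg⟩ := wi_graph hWI hmax.1 ⊤ (by
    intro y _
    obtain ⟨z, hz⟩ := mem_D.1 (hDtop ▸ Submodule.mem_top : y ∈ D R M) G hmax
    exact ⟨z, trivial, hz⟩)
  refine ⟨g, fun x => ?_⟩
  exact hmax.1.uniq (hg x trivial) (hle ⟨x, rfl⟩)

lemma D_inv (g : M →ₗ[R] M) : (D R M).map g ≤ D R M := by
  rintro _ ⟨d, hd, rfl⟩
  have hgF : Fn (LinearMap.graph g) := by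
    intro y hy
    rw [LinearMap.mem_graph_iff] at hy
    simpa using hy
  have hgmax : Maximal Fn (LinearMap.graph g) := by
    refine ⟨hgF, ?_⟩
    rintro G' hG' hle ⟨a, b⟩ hab
    have h1 : (a, g a) ∈ G' := hle (by rw [LinearMap.mem_graph_iff])
    rw [LinearMap.mem_graph_iff]
    exact hG'.uniq hab h1
  exact D_stable hgmax hd (by rw [LinearMap.mem_graph_iff])

/-- Weakly injective modules with essential socle are quasi-injective when every factor module by a
proper fully invariant submodule containing the socle has a nonzero submodule with Gabriel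
dimension; in particular this holds for all modules over a ring with left Gabriel dimension. -/
theorem result :
    (∀ (R : Type*) [Ring R] (M : Type*) [AddCommGroup M] [Module R M],
      WeaklyInjective R M → EssentialSocle R M →
      (∀ F : Submodule R M, F ≠ ⊤ → Soc R M ≤ F → (∀ g : M →ₗ[R] M, F.map g ≤ F) →
        ∃ B : Submodule R M, F < B ∧ Gab F B) →
      QuasiInjective R M) ∧
    (∀ (R : Type*) [Ring R], Gab (⊥ : Submodule R R) ⊤ →
      ∀ (M : Type*) [AddCommGroup M] [Module R M],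
      WeaklyInjective R M → EssentialSocle R M → QuasiInjective R M) := by
  refine ⟨?_, ?_⟩
  · intro R _ M _ _ hWI hsoc hGab
    refine qi_of_top hWI ?_
    by_contra hD
    obtain ⟨B, hB, hG⟩ := hGab (D R M) hD soc_le_D D_inv
    have hphi : Phi R M (D R M) B := phi_of_gab hWI hsoc (D R M) B hB.le hG
    refine absurd (fun x hx => ?_ : B ≤ D R M) (not_le_of_gt hB)
    exact hphi x hx x (fun r hr => hr)
  · intro R _ hG M _ _ hWI hsoc
    refine qi_of_top hWI ?_
    rw [eq_top_iff]
    intro m _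
    have hphi : Phi R M (⊥ : Submodule R R) ⊤ := phi_of_gab hWI hsoc ⊥ ⊤ bot_le hG
    refine hphi 1 trivial m ?_
    intro r hr
    rw [Submodule.mem_bot, smul_eq_mul, mul_one] at hr
    rw [hr, zero_smul]
    exact (D R M).zero_mem

end Pool.Agent.Results.MP_6bfc9e_al.GabrielDimension
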